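import Pool.Agent.W398.SG.Stm

namespace Pool.Agent.W455.SG.MAR

open Pool.Agent.W37.SG Pool.Agent.W398.SG
open scoped Matrix

theorem main : S_MAR := by
  intro p _ d a G _ _ hG ρ ρ' f f' hf hf' hρ hff
  classical
  have : Fintype G := Fintype.ofFinite G
  set P : ℤ_[p] := (p : ℤ_[p]) with hP
  have hP0 : P ≠ 0 := by
    rw [hP]; exact_mod_cast (Fact.out : p.Prime).ne_zero
  choose E hE using hρ
  choose F hF using hff
  have hcard : (Fintype.card G : ℤ_[p]) = P ^ a := by
    rw [← Nat.card_eq_fintype_card, hG]; push_cast; rfl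
  set EM : G → Mat p d := fun g => Matrix.of (E g) with hEM
  have hρ' : ∀ g, ρ' g = ρ g - P ^ (2 * a + 1) • EM g := by
    intro g
    ext i j
    have := hE g i j
    simp only [Matrix.sub_apply, Matrix.smul_apply, smul_eq_mul, hEM, Matrix.of_apply]
    linear_combination (-1 : ℤ_[p]) * this
  set M : Mat p d := ∑ g, EM g * ρ g⁻¹ with hM
  set A : Mat p d := 1 - P ^ (a + 1) • M with hA
  have hρρ : ∀ g, ρ g * ρ g⁻¹ = 1 := by
    intro g; rw [← map_mul, mul_inv_cancel, map_one]
  have hsum : ∑ g, ρ' g * ρ g⁻¹ = P ^ a • A := by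
    have h1 : ∀ g, ρ' g * ρ g⁻¹ = 1 - P ^ (2 * a + 1) • (EM g * ρ g⁻¹) := by
      intro g
      rw [hρ', sub_mul, hρρ, smul_mul_assoc]
    rw [Finset.sum_congr rfl (fun g _ => h1 g), Finset.sum_sub_distrib, ← Finset.smul_sum, ← hM,
      Finset.sum_const, Finset.card_univ, hA, smul_sub, smul_smul, ← pow_add]
    congr 1
    · rw [← hcard]
      ext i j
      simp
    · congr 2; ring
  have hcomm : ∀ x, A * ρ x = ρ' x * A := by
    intro x
    have h1 : ρ' x * (∑ g, ρ' g * ρ g⁻¹) = (∑ g, ρ' g * ρ g⁻¹) * ρ x := by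
      rw [Finset.mul_sum, Finset.sum_mul]
      rw [← Equiv.sum_comp (Equiv.mulLeft x) (fun g => ρ' g * ρ g⁻¹ * ρ x)]
      apply Finset.sum_congr rfl
      intro g _
      simp only [Equiv.coe_mulLeft]
      have e : ρ (x * g)⁻¹ * ρ x = ρ g⁻¹ := by
        rw [← map_mul, mul_inv_rev, inv_mul_cancel_right]
      rw [mul_assoc, e, map_mul, mul_assoc]
    rw [hsum, mul_smul_comm, smul_mul_assoc] at h1
    exact (smul_right_injective _ (pow_ne_zero a hP0) h1).symm
  have hdet : IsUnit A.det := by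
    have h1 : (PadicInt.toZMod (p := p)) A.det = 1 := by
      rw [RingHom.map_det]
      have : (PadicInt.toZMod (p := p)).mapMatrix A = 1 := by
        ext i j
        rw [RingHom.mapMatrix_apply, Matrix.map_apply, hA, Matrix.sub_apply, Matrix.smul_apply,
          smul_eq_mul, map_sub, map_mul, map_pow, hP, map_natCast, CharP.cast_eq_zero,
          zero_pow (Nat.succ_ne_zero a), zero_mul, sub_zero]
        by_cases hij : i = j
        · subst hij; simp
        · simp [Matrix.one_apply_ne hij]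
      rw [this, Matrix.det_one]
    by_contra hu
    have h2 : A.det ∈ IsLocalRing.maximalIdeal ℤ_[p] := (IsLocalRing.mem_maximalIdeal _).2 hu
    rw [← PadicInt.ker_toZMod, RingHom.mem_ker, h1] at h2
    exact one_ne_zero h2
  have hkey : ∀ x y, ∃ w : Lat p d, A *ᵥ f x y - f' x y = P ^ a • w := by
    intro x y
    refine ⟨P ^ (a + 1) • F x y - P • (M *ᵥ f x y), ?_⟩
    ext i
    have := hF x y i
    rw [hA, Matrix.sub_mulVec, Matrix.one_mulVec, Matrix.smul_mulVec]
    simp only [Pi.sub_apply, Pi.smul_apply, smul_eq_mul]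
    rw [show f x y i - P ^ (a + 1) * (M *ᵥ f x y) i - f' x y i = (f x y i - f' x y i) -
      P ^ (a + 1) * (M *ᵥ f x y) i by ring, this]
    ring
  choose w hw using hkey
  have hcoc : ∀ x y z, w x y + w (x * y) z = ρ' x *ᵥ w y z + w x (y * z) := by
    intro x y z
    apply smul_right_injective _ (pow_ne_zero a hP0)
    simp only
    rw [smul_add, smul_add, ← hw, ← hw, ← Matrix.mulVec_smul, ← hw, ← hw, Matrix.mulVec_sub,
      Matrix.mulVec_mulVec, ← hcomm, ← Matrix.mulVec_mulVec]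
    have e1 := hf x y z
    have e2 := hf' x y z
    have e3 : A *ᵥ f x y + A *ᵥ f (x * y) z = A *ᵥ (ρ x *ᵥ f y z) + A *ᵥ f x (y * z) := by
      rw [← Matrix.mulVec_add, ← Matrix.mulVec_add, e1]
    linear_combination (exp := 1) e3 - e2
  refine ⟨A, A⁻¹, fun x => ∑ z, w x z, Matrix.mul_nonsing_inv A hdet,
    Matrix.nonsing_inv_mul A hdet, hcomm, ?_⟩
  intro x y
  have hs : ∑ z, (w x y + w (x * y) z) = ∑ z, (ρ' x *ᵥ w y z + w x (y * z)) :=
    Finset.sum_congr rfl (fun z _ => hcoc x y z)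
  have e : ∑ z, w x (y * z) = ∑ z, w x z := Equiv.sum_comp (Equiv.mulLeft y) (fun z => w x z)
  have e2 : ∑ z, ρ' x *ᵥ w y z = ρ' x *ᵥ ∑ z, w y z :=
    (map_sum (Matrix.mulVecLin (ρ' x)) (fun z => w y z) Finset.univ).symm
  rw [Finset.sum_add_distrib, Finset.sum_add_distrib, Finset.sum_const, Finset.card_univ,
    e, e2, ← Nat.cast_smul_eq_nsmul ℤ_[p], hcard, ← hw] at hs
  simp only
  linear_combination (exp := 1) hs

end Pool.Agent.W455.SG.MAR
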